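import Mathlib
import Pool.Agent.V11170.SemiBaxter
import Pool.Agent.V11170.Tools

set_option autoImplicit false

namespace Pool.Agent.Results.MP_d8535d_co.ConstantLimit

open Finset Filter Topology Pool.Agent.V11170.SemiBaxter Pool.Agent.V11170.Tools

/-! ### definitions -/

/-- The permutation `τ` (of `0, …, n - 1`, in one-line notation) is minimal overlapping: there is
no `k` with `2 ≤ k ≤ n - 1` such that the first `k` and the last `k` entries are
order-isomorphic. -/
def MinOverlapping {n : ℕ} (τ : Equiv.Perm (Fin n)) : Prop :=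
  ¬ ∃ k, 2 ≤ k ∧ ∃ h : k < n, ∀ i j : Fin k,
    (τ ⟨i, by have := i.is_lt; omega⟩ < τ ⟨j, by have := j.is_lt; omega⟩ ↔
      τ ⟨n - k + i, by have := i.is_lt; omega⟩ < τ ⟨n - k + j, by have := j.is_lt; omega⟩)

/-- The proportion of minimal overlapping permutations among the permutations of length `n` whose
first entry is `m` (the entries of `τ` are counted from `0`, hence the `+ 1`). -/
noncomputable def p (n m : ℕ) : ℝ :=
  (Nat.card {τ : Equiv.Perm (Fin n) //
    MinOverlapping τ ∧ ∃ h : 0 < n, (τ ⟨0, h⟩ : ℕ) + 1 = m} : ℝ) / ((n - 1).factorial : ℝ)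

/-! ### overlaps of words -/

/-- The first `k` and the last `k` of the first `n` letters are order-isomorphic. -/
def Ov (n k : ℕ) (W : ℕ → ℕ) : Prop :=
  ∀ i j, i < k → j < k → (W i < W j ↔ W (n - k + i) < W (n - k + j))

theorem minOverlapping_iff {n : ℕ} (τ : Equiv.Perm (Fin n)) :
    MinOverlapping τ ↔ ∀ k, 2 ≤ k → k < n → ¬ Ov n k (exP τ) := by
  unfold MinOverlapping
  constructor
  · intro h k hk hkn ho
    refine h ⟨k, hk, hkn, fun i j => ?_⟩
    have h1 := ho i j i.is_lt j.is_lt
    have hi := i.is_lt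
    have hj := j.is_lt
    rw [exP_of_lt τ (by omega), exP_of_lt τ (by omega), exP_of_lt τ (by omega),
      exP_of_lt τ (by omega)] at h1
    exact h1
  · rintro h ⟨k, hk, hkn, ho⟩
    refine h k hk hkn (fun i j hi hj => ?_)
    have h1 := ho ⟨i, hi⟩ ⟨j, hj⟩
    rw [exP_of_lt τ (by omega), exP_of_lt τ (by omega), exP_of_lt τ (by omega),
      exP_of_lt τ (by omega)]
    exact h1

theorem ov_shift {n s : ℕ} {W : ℕ → ℕ} (hs : s ≤ n) (h : Ov n (n - s) W) :
    ∀ t i j, i + t * s < n → j + t * s < n → (W i < W j ↔ W (i + t * s) < W (j + t * s)) := by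
  intro t
  induction t with
  | zero =>
    intro i j _ _
    rw [Nat.zero_mul, Nat.add_zero, Nat.add_zero]
  | succ t ih =>
    intro i j hi hj
    rw [Nat.succ_mul] at hi hj
    rw [ih i j (by omega) (by omega), h (i + t * s) (j + t * s) (by omega) (by omega),
      Nat.succ_mul, show n - (n - s) + (i + t * s) = i + (t * s + s) by omega,
      show n - (n - s) + (j + t * s) = j + (t * s + s) by omega]

/-- An overlap gives two disjoint order-isomorphic windows. -/
theorem exists_window {n k : ℕ} (hk : k < n) : ∃ s, min k (n / 3) ≤ s ∧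
    s + min k (n / 3) ≤ n ∧ ∀ W : ℕ → ℕ, Ov n k W → ∀ i j, i < min k (n / 3) →
      j < min k (n / 3) → (W i < W j ↔ W (s + i) < W (s + j)) := by
  by_cases h1 : k ≤ n / 3
  · refine ⟨n - k, by omega, by omega, fun W h i j hi hj => h i j (by omega) (by omega)⟩
  · by_cases h2 : n / 3 ≤ n - k
    · refine ⟨n - k, by omega, by omega, fun W h i j hi hj => h i j (by omega) (by omega)⟩
    · obtain ⟨s, hs⟩ : ∃ s, s = n - k := ⟨_, rfl⟩
      obtain ⟨q, hq⟩ : ∃ q, q = n / 3 := ⟨_, rfl⟩
      have hs0 : 0 < s := by omega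
      have h3 : q / s * s ≤ q := Nat.div_mul_le_self q s
      have h4 : q < q / s * s + s := Nat.lt_div_mul_add hs0
      have h5 : (q / s + 1) * s = q / s * s + s := by ring
      refine ⟨(q / s + 1) * s, by omega, by omega, fun W h i j hi hj => ?_⟩
      have h6 : Ov n (n - s) W := by
        rw [show n - s = k by omega]
        exact h
      rw [ov_shift (by omega) h6 (q / s + 1) i j (by omega) (by omega), Nat.add_comm i,
        Nat.add_comm j]

/-! ### counting -/

open scoped Classical in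
/-- Permutations with first letter `m` and a property. -/
noncomputable def C (n m : ℕ) (P : (ℕ → ℕ) → Prop) : Finset (Equiv.Perm (Fin n)) :=
  univ.filter (fun τ => exP τ 0 = m ∧ P (exP τ))

theorem mem_C {n m : ℕ} {P : (ℕ → ℕ) → Prop} {τ : Equiv.Perm (Fin n)} :
    τ ∈ C n m P ↔ exP τ 0 = m ∧ P (exP τ) := by
  classical
  unfold C
  rw [mem_filter]
  exact ⟨fun h => h.2, fun h => ⟨mem_univ _, h⟩⟩

theorem exP_mul {n : ℕ} (τ ρ : Equiv.Perm (Fin n)) {i : ℕ} (hi : i < n) :
    exP (τ * ρ) i = exP τ (ρ ⟨i, hi⟩) := by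
  rw [exP_of_lt _ hi, exP_of_lt τ (Fin.is_lt _)]
  rfl

theorem card_window {n m s l : ℕ} (hl : l ≤ s) (hs : s + l ≤ n) :
    (C n m (fun W => ∀ i j, i < l → j < l → (W i < W j ↔ W (s + i) < W (s + j)))).card *
      l.factorial ≤ (C n m (fun _ => True)).card := by
  classical
  let f : Fin l ↪ Fin n := ⟨fun i => ⟨s + i, by have := i.is_lt; omega⟩, fun i j h => by
    have := congrArg Fin.val h
    exact Fin.ext (by simpa using this)⟩
  have hf : ∀ i, (f i : ℕ) = s + i := fun i => rfl
  have hout : ∀ {x : Fin n}, (x : ℕ) < s → x ∉ Set.range f := by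
    rintro x hx ⟨i, hi⟩
    rw [← hi, hf] at hx
    omega
  have hcard : l.factorial = (univ : Finset (Equiv.Perm (Fin l))).card := by
    rw [card_univ, Fintype.card_perm, Fintype.card_fin]
  rw [hcard, ← card_product]
  apply card_le_card_of_injOn (fun x => x.1 * (x.2.viaFintypeEmbedding f))
  · rintro ⟨τ, σ⟩ hx
    rw [mem_coe, mem_product] at hx
    have h1 := mem_C.mp hx.1
    rw [mem_coe, mem_C]
    refine ⟨?_, trivial⟩
    by_cases hn : 0 < n
    · rw [exP_mul _ _ hn]
      by_cases hl0 : l = 0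
      · rw [Equiv.Perm.viaFintypeEmbedding_apply_notMem_range]
        · exact h1.1
        · rintro ⟨i, _⟩
          have := i.is_lt
          omega
      · rw [Equiv.Perm.viaFintypeEmbedding_apply_notMem_range]
        · exact h1.1
        · exact hout (x := ⟨0, hn⟩) (by show 0 < s; omega)
    · unfold exP
      rw [ex_of_ge _ hn]
      have := h1.1
      unfold exP at this
      rwa [ex_of_ge _ hn] at this
  · rintro ⟨τ, σ⟩ hx ⟨τ', σ'⟩ hx' h
    rw [mem_coe, mem_product] at hx hx'
    have h1 := (mem_C.mp hx.1).2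
    have h1' := (mem_C.mp hx'.1).2
    simp only at h h1 h1'
    have hoff : ∀ x, x ∉ Set.range f → τ x = τ' x := by
      intro x hx
      have h2 := congrArg (fun e => e x) h
      simp only [Equiv.Perm.mul_apply] at h2
      rwa [Equiv.Perm.viaFintypeEmbedding_apply_notMem_range _ _ hx,
        Equiv.Perm.viaFintypeEmbedding_apply_notMem_range _ _ hx] at h2
    have hon : ∀ i, τ (f (σ i)) = τ' (f (σ' i)) := by
      intro i
      have h2 := congrArg (fun e => e (f i)) h
      simp only [Equiv.Perm.mul_apply] at h2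
      rwa [Equiv.Perm.viaFintypeEmbedding_apply_image,
        Equiv.Perm.viaFintypeEmbedding_apply_image] at h2
    have hord : ∀ i j, τ (f i) < τ (f j) ↔ τ' (f i) < τ' (f j) := by
      intro i j
      have hi := i.is_lt
      have hj := j.is_lt
      have e1 := h1 i j hi hj
      have e2 := h1' i j hi hj
      rw [exP_of_lt τ (by omega), exP_of_lt τ (by omega), exP_of_lt τ (by omega),
        exP_of_lt τ (by omega)] at e1
      rw [exP_of_lt τ' (by omega), exP_of_lt τ' (by omega), exP_of_lt τ' (by omega),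
        exP_of_lt τ' (by omega)] at e2
      rw [← hoff _ (hout (x := ⟨i, by omega⟩) (by show (i : ℕ) < s; omega)),
        ← hoff _ (hout (x := ⟨j, by omega⟩) (by show (j : ℕ) < s; omega))] at e2
      exact e1.symm.trans e2
    obtain ⟨π, hπ⟩ := exists_perm (fun i => (τ (f i) : ℕ)) (fun i j hij =>
      f.injective (τ.injective (Fin.ext hij)))
    have hσ : π * σ = π * σ' := by
      apply perm_eq_of_order
      intro i j
      rw [Equiv.Perm.mul_apply, Equiv.Perm.mul_apply, Equiv.Perm.mul_apply,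
        Equiv.Perm.mul_apply, hπ, hπ]
      have e3 : τ (f (σ i)) < τ (f (σ j)) ↔ τ (f (σ' i)) < τ (f (σ' j)) := by
        rw [hon, hon, hord]
      exact e3
    have hσ' : σ = σ' := mul_left_cancel hσ
    subst hσ'
    rw [mul_right_cancel h]

/-- Relabelling of the positions. -/
theorem sum_mul_right {n : ℕ} (F : (ℕ → ℕ) → ℕ) (ρ : Equiv.Perm (Fin n)) :
    ∑ τ : Equiv.Perm (Fin n), F (exP τ) = ∑ τ : Equiv.Perm (Fin n), F (exP (τ * ρ)) :=
  (Equiv.sum_comp (Equiv.mulRight ρ) (fun τ => F (exP τ))).symm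

theorem card_C {n m : ℕ} (P : (ℕ → ℕ) → Prop) (F : (ℕ → ℕ) → ℕ)
    (hF : ∀ W, (F W = 1 ∧ (W 0 = m ∧ P W)) ∨ (F W = 0 ∧ ¬ (W 0 = m ∧ P W))) :
    (C n m P).card = ∑ τ : Equiv.Perm (Fin n), F (exP τ) := by
  classical
  unfold C
  rw [card_filter]
  apply sum_congr rfl
  intro τ _
  rcases hF (exP τ) with ⟨h1, h2⟩ | ⟨h1, h2⟩
  · rw [h1, if_pos h2]
  · rw [h1, if_neg h2]

theorem card_first (n m : ℕ) (hm : m ≤ n) :
    (C (n + 1) m (fun _ => True)).card = n.factorial := by
  rw [card_C (fun _ => True) (fun W => if W 0 = m ∧ True then 1 else 0) (fun W => by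
      by_cases h : W 0 = m ∧ True
      · exact Or.inl ⟨if_pos h, h⟩
      · exact Or.inr ⟨if_neg h, h⟩),
    sum_mul_right (fun W => if W 0 = m ∧ True then 1 else 0)
      (Equiv.swap (0 : Fin (n + 1)) (Fin.last n))]
  have h1 : ∀ τ : Equiv.Perm (Fin (n + 1)),
      exP (τ * Equiv.swap (0 : Fin (n + 1)) (Fin.last n)) 0 = exP τ n := by
    intro τ
    rw [exP_mul _ _ (by omega : 0 < n + 1)]
    have : (⟨0, by omega⟩ : Fin (n + 1)) = 0 := rfl
    rw [this, Equiv.swap_apply_left]
    rfl
  simp only [h1]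
  rw [sum_perm_succ n (fun W => if W n = m ∧ True then 1 else 0)]
  have h2 : ∀ σ : Equiv.Perm (Fin n),
      ∑ v ∈ range (n + 1), (if ins n v (exP σ) n = m ∧ True then 1 else 0) = 1 := by
    intro σ
    have h3 : ∀ v, (if ins n v (exP σ) n = m ∧ True then 1 else 0) = if v = m then 1 else 0 := by
      intro v
      rw [ins_self]
      by_cases h : v = m
      · rw [if_pos ⟨h, trivial⟩, if_pos h]
      · rw [if_neg (fun h' => h h'.1), if_neg h]
    simp only [h3]
    rw [sum_ite_eq' (range (n + 1)) m, if_pos (mem_range.mpr (by omega))]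
  simp only [h2]
  rw [sum_const, card_univ, Fintype.card_perm, Fintype.card_fin, smul_eq_mul, mul_one]

theorem card_two {n a b j : ℕ} (ha : a ≤ n + 1) (hb : b ≤ n + 1) (hab : a ≠ b) (hj : 1 ≤ j)
    (hjn : j ≤ n + 1) :
    (C (n + 2) a (fun W => W j = b)).card = n.factorial := by
  rw [card_C (fun W => W j = b) (fun W => if W 0 = a ∧ W j = b then 1 else 0) (fun W => by
      by_cases h : W 0 = a ∧ W j = b
      · exact Or.inl ⟨if_pos h, h⟩
      · exact Or.inr ⟨if_neg h, h⟩),
    sum_mul_right (fun W => if W 0 = a ∧ W j = b then 1 else 0)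
      (Equiv.swap (⟨j, by omega⟩ : Fin (n + 2)) (Fin.last (n + 1)))]
  have h1 : ∀ τ : Equiv.Perm (Fin (n + 2)),
      exP (τ * Equiv.swap (⟨j, by omega⟩ : Fin (n + 2)) (Fin.last (n + 1))) j =
        exP τ (n + 1) := by
    intro τ
    rw [exP_mul _ _ (by omega : j < n + 2), Equiv.swap_apply_left]
    rfl
  have h0 : ∀ τ : Equiv.Perm (Fin (n + 2)),
      exP (τ * Equiv.swap (⟨j, by omega⟩ : Fin (n + 2)) (Fin.last (n + 1))) 0 = exP τ 0 := by
    intro τ
    rw [exP_mul _ _ (by omega : 0 < n + 2), Equiv.swap_apply_of_ne_of_ne]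
    · intro h
      have := congrArg Fin.val h
      simp only at this
      omega
    · intro h
      have := congrArg Fin.val h
      simp only [Fin.val_last] at this
      omega
  simp only [h1, h0]
  rw [sum_perm_succ (n + 1) (fun W => if W 0 = a ∧ W (n + 1) = b then 1 else 0)]
  have h2 : ∀ σ : Equiv.Perm (Fin (n + 1)),
      ∑ v ∈ range (n + 1 + 1), (if ins (n + 1) v (exP σ) 0 = a ∧
        ins (n + 1) v (exP σ) (n + 1) = b then 1 else 0) =
      if exP σ 0 = (if a < b then a else a - 1) ∧ True then 1 else 0 := by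
    intro σ
    have h3 : ∀ v, (if ins (n + 1) v (exP σ) 0 = a ∧
        ins (n + 1) v (exP σ) (n + 1) = b then 1 else 0) =
        if v = b then (if exP σ 0 = (if a < b then a else a - 1) ∧ True then 1 else 0) else 0 := by
      intro v
      rw [ins_self, ins_lt (by omega)]
      by_cases h : v = b
      · rw [if_pos h, h]
        congr 1
        apply propext
        constructor
        · rintro ⟨h4, _⟩
          refine ⟨?_, trivial⟩
          split_ifs at h4 ⊢ <;> omega
        · rintro ⟨h4, _⟩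
          refine ⟨?_, rfl⟩
          split_ifs at h4 ⊢ <;> omega
      · rw [if_neg (fun h' => h h'.2), if_neg h]
    simp only [h3]
    rw [sum_ite_eq' (range (n + 1 + 1)) b, if_pos (mem_range.mpr (by omega))]
  simp only [h2]
  rw [← card_first n (if a < b then a else a - 1) (by split_ifs <;> omega)]
  rw [card_C (fun _ => True)
    (fun W => if W 0 = (if a < b then a else a - 1) ∧ True then 1 else 0) (fun W => by
      by_cases h : W 0 = (if a < b then a else a - 1) ∧ True
      · exact Or.inl ⟨if_pos h, h⟩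
      · exact Or.inr ⟨if_neg h, h⟩)]

/-- No overlap of length `2, …, K`. -/
def GoodK (n K : ℕ) (W : ℕ → ℕ) : Prop := ∀ k, 2 ≤ k → k ≤ K → ¬ Ov n k W

/-- Removing the letter in position `K`. -/
theorem card_middle {n K : ℕ} (hK : 1 ≤ K) (hn : 2 * K ≤ n) :
    (C (n + 1) 0 (GoodK (n + 1) K)).card = n * (C n 0 (GoodK n K)).card := by
  classical
  let c : Fin (n + 1) := ⟨K, by omega⟩
  let ρ : Equiv.Perm (Fin (n + 1)) := (finSuccEquiv' c).trans (finSuccEquiv' (Fin.last n)).symm
  have hρ : ∀ i : Fin n, ρ (c.succAbove i) = i.castSucc := by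
    intro i
    show (finSuccEquiv' (Fin.last n)).symm (finSuccEquiv' c (c.succAbove i)) = i.castSucc
    rw [finSuccEquiv'_succAbove, finSuccEquiv'_symm_some, Fin.succAbove_last]
  have hlow : ∀ (τ : Equiv.Perm (Fin (n + 1))) i, i < K → exP (τ * ρ) i = exP τ i := by
    intro τ i hi
    rw [exP_mul _ _ (by omega : i < n + 1)]
    have h1 : (⟨i, by omega⟩ : Fin (n + 1)) = c.succAbove ⟨i, by omega⟩ := by
      rw [Fin.succAbove_of_castSucc_lt]
      · rfl
      · exact hi
    rw [h1, hρ]
    rfl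
  have hhigh : ∀ (τ : Equiv.Perm (Fin (n + 1))) i, K ≤ i → i < n →
      exP (τ * ρ) (i + 1) = exP τ i := by
    intro τ i hi hin
    rw [exP_mul _ _ (by omega : i + 1 < n + 1)]
    have h1 : (⟨i + 1, by omega⟩ : Fin (n + 1)) = c.succAbove ⟨i, hin⟩ := by
      rw [Fin.succAbove_of_le_castSucc]
      · rfl
      · exact hi
    rw [h1, hρ]
    rfl
  unfold C
  rw [card_filter, card_filter]
  rw [sum_mul_right (fun W => if W 0 = 0 ∧ GoodK (n + 1) K W then 1 else 0) ρ]
  have h1 : ∀ τ : Equiv.Perm (Fin (n + 1)),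
      (exP (τ * ρ) 0 = 0 ∧ GoodK (n + 1) K (exP (τ * ρ))) ↔
        (exP τ 0 = 0 ∧ GoodK n K (exP τ)) := by
    intro τ
    rw [hlow τ 0 (by omega)]
    have h2 : ∀ k, 2 ≤ k → k ≤ K → (Ov (n + 1) k (exP (τ * ρ)) ↔ Ov n k (exP τ)) := by
      intro k hk hkK
      have h3 : ∀ i j, i < k → j < k →
          ((exP (τ * ρ) i < exP (τ * ρ) j ↔
            exP (τ * ρ) (n + 1 - k + i) < exP (τ * ρ) (n + 1 - k + j)) ↔
          (exP τ i < exP τ j ↔ exP τ (n - k + i) < exP τ (n - k + j))) := by
        intro i j hi hj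
        rw [hlow τ i (by omega), hlow τ j (by omega),
          show n + 1 - k + i = (n - k + i) + 1 by omega,
          show n + 1 - k + j = (n - k + j) + 1 by omega,
          hhigh τ (n - k + i) (by omega) (by omega), hhigh τ (n - k + j) (by omega) (by omega)]
      constructor
      · intro h i j hi hj
        exact (h3 i j hi hj).mp (h i j hi hj)
      · intro h i j hi hj
        exact (h3 i j hi hj).mpr (h i j hi hj)
    constructor
    · rintro ⟨h3, h4⟩
      exact ⟨h3, fun k hk hkK h5 => h4 k hk hkK ((h2 k hk hkK).mpr h5)⟩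
    · rintro ⟨h3, h4⟩
      exact ⟨h3, fun k hk hkK h5 => h4 k hk hkK ((h2 k hk hkK).mp h5)⟩
  simp only [h1]
  rw [sum_perm_succ n (fun W => if W 0 = 0 ∧ GoodK n K W then 1 else 0), mul_sum]
  apply sum_congr rfl
  intro σ _
  have h2 : ∀ v, (if ins n v (exP σ) 0 = 0 ∧ GoodK n K (ins n v (exP σ)) then 1 else 0) =
      (if exP σ 0 = 0 ∧ GoodK n K (exP σ) then 1 else 0) * (if v = 0 then 0 else 1) := by
    intro v
    have h3 : GoodK n K (ins n v (exP σ)) ↔ GoodK n K (exP σ) := by
      have h4 : ∀ k, 2 ≤ k → k ≤ K → (Ov n k (ins n v (exP σ)) ↔ Ov n k (exP σ)) := by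
        intro k hk hkK
        have h5 : ∀ i j, i < n → j < n →
            (ins n v (exP σ) i < ins n v (exP σ) j ↔ exP σ i < exP σ j) := by
          intro i j hi hj
          rw [ins_lt hi, ins_lt hj]
          split_ifs <;> omega
        unfold Ov
        constructor
        · intro h i j hi hj
          rw [← h5 i j (by omega) (by omega), h i j hi hj, h5 _ _ (by omega) (by omega)]
        · intro h i j hi hj
          rw [h5 i j (by omega) (by omega), h i j hi hj, h5 _ _ (by omega) (by omega)]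
      constructor
      · exact fun h k hk hkK h5 => h k hk hkK ((h4 k hk hkK).mpr h5)
      · exact fun h k hk hkK h5 => h k hk hkK ((h4 k hk hkK).mp h5)
    have h6 : ins n v (exP σ) 0 = 0 ↔ exP σ 0 = 0 ∧ v ≠ 0 := by
      rw [ins_lt (by omega)]
      constructor
      · intro h7
        split_ifs at h7
        omega
      · rintro ⟨h7, h8⟩
        rw [if_pos (by omega)]
        exact h7
    by_cases hv : v = 0
    · rw [if_pos hv, mul_zero, if_neg]
      rintro ⟨h7, _⟩
      exact (h6.mp h7).2 hv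
    · rw [if_neg hv, mul_one]
      congr 1
      apply propext
      rw [h3, h6]
      constructor
      · rintro ⟨⟨h7, _⟩, h8⟩
        exact ⟨h7, h8⟩
      · rintro ⟨h7, h8⟩
        exact ⟨⟨h7, hv⟩, h8⟩
  simp only [h2]
  rw [← mul_sum, sum_range_succ', mul_comm]
  congr 1
  simp

/-- Comparison of two neighbouring first letters. -/
theorem card_swap_le {n a b K : ℕ} (ha : a ≤ n + 1) (hb : b ≤ n + 1)
    (hab : b = a + 1 ∨ a = b + 1) (hKn : K ≤ n + 1) :
    (C (n + 2) a (GoodK (n + 2) K)).card ≤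
      (C (n + 2) b (GoodK (n + 2) K)).card + K * n.factorial := by
  classical
  have hsub : C (n + 2) a (GoodK (n + 2) K) ⊆
      C (n + 2) a (fun W => GoodK (n + 2) K W ∧ ∀ j, 1 ≤ j → j < K → W j ≠ b) ∪
        (Ico 1 K).biUnion (fun j => C (n + 2) a (fun W => W j = b)) := by
    intro τ hτ
    rw [mem_C] at hτ
    rw [mem_union, mem_C, mem_biUnion]
    by_cases h : ∃ j, 1 ≤ j ∧ j < K ∧ exP τ j = b
    · obtain ⟨j, h1, h2, h3⟩ := h
      right
      exact ⟨j, mem_Ico.mpr ⟨h1, h2⟩, mem_C.mpr ⟨hτ.1, h3⟩⟩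
    · push Not at h
      exact Or.inl ⟨hτ.1, hτ.2, h⟩
  refine le_trans (card_le_card hsub) (le_trans (card_union_le _ _) (add_le_add ?_ ?_))
  · let s : Equiv.Perm (Fin (n + 2)) := Equiv.swap ⟨a, by omega⟩ ⟨b, by omega⟩
    apply card_le_card_of_injOn (fun τ => s * τ)
    · intro τ hτ
      rw [mem_coe, mem_C] at hτ
      obtain ⟨h0, hg, hb'⟩ := hτ
      rw [mem_coe, mem_C]
      have hval : ∀ i, i < n + 2 → exP (s * τ) i =
          if exP τ i = a then b else if exP τ i = b then a else exP τ i := by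
        intro i hi
        rw [exP_of_lt _ hi, exP_of_lt _ hi]
        show ((Equiv.swap (⟨a, by omega⟩ : Fin (n + 2)) ⟨b, by omega⟩ (τ ⟨i, hi⟩) : Fin (n + 2)) :
          ℕ) = _
        rw [Equiv.swap_apply_def]
        by_cases h1 : τ ⟨i, hi⟩ = ⟨a, by omega⟩
        · rw [if_pos h1, if_pos (congrArg Fin.val h1)]
        · rw [if_neg h1, if_neg (fun h => h1 (Fin.ext h))]
          by_cases h2 : τ ⟨i, hi⟩ = ⟨b, by omega⟩
          · rw [if_pos h2, if_pos (congrArg Fin.val h2)]
          · rw [if_neg h2, if_neg (fun h => h2 (Fin.ext h))]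
      have hinj : ∀ x, x < n + 2 → exP τ x = a → x = 0 := by
        intro x hx h
        by_contra hne
        exact exP_inj τ hx (by omega) hne (h.trans h0.symm)
      have hcmp : ∀ i j, i < n + 2 → j < n + 2 → ¬ (exP τ i = a ∧ exP τ j = b) →
          ¬ (exP τ i = b ∧ exP τ j = a) →
          (exP (s * τ) i < exP (s * τ) j ↔ exP τ i < exP τ j) := by
        intro i j hi hj h1 h2
        rw [hval i hi, hval j hj]
        split_ifs <;> omega
      refine ⟨?_, ?_⟩
      · rw [hval 0 (by omega), if_pos h0]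
      · intro k hk hkK ho
        apply hg k hk hkK
        intro i j hi hj
        have e1 := hcmp i j (by omega) (by omega) (by
          rintro ⟨h1, h2⟩
          by_cases hj0 : j = 0
          · rw [hj0, h0] at h2
            omega
          · exact hb' j (by omega) (by omega) h2) (by
          rintro ⟨h1, h2⟩
          by_cases hi0 : i = 0
          · rw [hi0, h0] at h1
            omega
          · exact hb' i (by omega) (by omega) h1)
        have e2 := hcmp (n + 2 - k + i) (n + 2 - k + j) (by omega) (by omega) (by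
          rintro ⟨h1, h2⟩
          have := hinj _ (by omega) h1
          omega) (by
          rintro ⟨h1, h2⟩
          have := hinj _ (by omega) h2
          omega)
        rw [← e1, ← e2]
        exact ho i j hi hj
    · intro τ _ τ' _ h
      exact mul_left_cancel h
  · refine le_trans card_biUnion_le ?_
    rw [sum_congr rfl (fun j hj => card_two ha hb (by omega) (mem_Ico.mp hj).1
      (by have := (mem_Ico.mp hj).2; omega)), sum_const, Nat.card_Ico, smul_eq_mul]
    exact Nat.mul_le_mul_right _ (by omega)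

theorem card_ov {n m k : ℕ} (hk : k < n) (hm : m < n) :
    (C n m (Ov n k)).card * (min k (n / 3)).factorial ≤ (n - 1).factorial := by
  obtain ⟨s, h1, h2, h3⟩ := exists_window hk
  have h4 := card_window (m := m) h1 h2
  have h5 : (C n m (fun _ => True)).card = (n - 1).factorial := by
    obtain ⟨n, rfl⟩ : ∃ n', n = n' + 1 := ⟨n - 1, by omega⟩
    exact card_first n m (by omega)
  rw [h5] at h4
  refine le_trans (Nat.mul_le_mul_right _ (card_le_card ?_)) h4
  intro τ hτ
  rw [mem_C] at hτ ⊢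
  exact ⟨hτ.1, h3 _ hτ.2⟩

theorem card_good_le {n m K : ℕ} : (C n m (GoodK n K)).card ≤
    (C n m (GoodK n (n - 1))).card + ∑ k ∈ Ioo K n, (C n m (Ov n k)).card := by
  classical
  have hsub : C n m (GoodK n K) ⊆ C n m (GoodK n (n - 1)) ∪
      (Ioo K n).biUnion (fun k => C n m (Ov n k)) := by
    intro τ hτ
    rw [mem_C] at hτ
    rw [mem_union, mem_biUnion]
    by_cases h : ∃ k, K < k ∧ k < n ∧ Ov n k (exP τ)
    · obtain ⟨k, h1, h2, h3⟩ := h
      right
      exact ⟨k, mem_Ioo.mpr ⟨h1, h2⟩, mem_C.mpr ⟨hτ.1, h3⟩⟩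
    · left
      rw [mem_C]
      refine ⟨hτ.1, fun k hk hkn ho => ?_⟩
      by_cases h1 : k ≤ K
      · exact hτ.2 k hk h1 ho
      · by_cases h2 : k < n
        · exact h ⟨k, by omega, h2, ho⟩
        · omega
  exact le_trans (card_le_card hsub) (le_trans (card_union_le _ _)
    (Nat.add_le_add_left card_biUnion_le _))

theorem card_good_ge {n m K : ℕ} (hK : K ≤ n - 1) :
    (C n m (GoodK n (n - 1))).card ≤ (C n m (GoodK n K)).card := by
  apply card_le_card
  intro τ hτ
  rw [mem_C] at hτ ⊢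
  exact ⟨hτ.1, fun k hk hkK => hτ.2 k hk (by omega)⟩

/-! ### proportions -/

/-- The proportion for the truncated property. -/
noncomputable def g (n m K : ℕ) : ℝ :=
  ((C n m (GoodK n K)).card : ℝ) / ((n - 1).factorial : ℝ)

theorem fac_pos (n : ℕ) : (0 : ℝ) < (n.factorial : ℝ) := by
  exact_mod_cast Nat.factorial_pos n

theorem p_eq {n m : ℕ} (hn : 0 < n) : p n (m + 1) = g n m (n - 1) := by
  unfold p g
  congr 2
  classical
  rw [Nat.card_eq_fintype_card]
  rw [Fintype.card_subtype]
  congr 1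
  ext τ
  rw [mem_filter, mem_C, minOverlapping_iff]
  constructor
  · rintro ⟨_, h1, h2, h3⟩
    rw [exP_of_lt τ h2]
    exact ⟨by omega, fun k hk hkn => h1 k hk (by omega)⟩
  · rintro ⟨h1, h2⟩
    rw [exP_of_lt τ hn] at h1
    exact ⟨mem_univ _, fun k hk hkn => h2 k hk (by omega), hn, by omega⟩

/-- The error bound. -/
noncomputable def e (n K : ℕ) : ℝ :=
  ∑ k ∈ Ioo K n, 1 / ((min k (n / 3)).factorial : ℝ)

theorem g_le {n m K : ℕ} (hm : m < n) : g n m K ≤ g n m (n - 1) + e n K := by
  unfold g e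
  rw [div_add' _ _ _ (fac_pos _).ne']
  apply div_le_div_of_nonneg_right _ (fac_pos _).le
  have h1 : ((C n m (GoodK n K)).card : ℝ) ≤
      ((C n m (GoodK n (n - 1))).card : ℝ) + ∑ k ∈ Ioo K n, ((C n m (Ov n k)).card : ℝ) := by
    exact_mod_cast card_good_le
  refine le_trans h1 (add_le_add le_rfl ?_)
  rw [sum_mul]
  apply sum_le_sum
  intro k hk
  rw [mem_Ioo] at hk
  rw [div_mul_eq_mul_div, one_mul, le_div_iff₀ (fac_pos _)]
  exact_mod_cast card_ov hk.2 hm

theorem g_ge {n m K : ℕ} (hK : K ≤ n - 1) : g n m (n - 1) ≤ g n m K := by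
  unfold g
  apply div_le_div_of_nonneg_right _ (fac_pos _).le
  exact_mod_cast card_good_ge hK

theorem g_swap {n a b K : ℕ} (ha : a ≤ n + 1) (hb : b ≤ n + 1)
    (hab : b = a + 1 ∨ a = b + 1) (hKn : K ≤ n + 1) :
    g (n + 2) a K ≤ g (n + 2) b K + K / ((n : ℝ) + 1) := by
  unfold g
  have h1 : ((C (n + 2) a (GoodK (n + 2) K)).card : ℝ) ≤
      ((C (n + 2) b (GoodK (n + 2) K)).card : ℝ) + K * n.factorial := by
    exact_mod_cast card_swap_le ha hb hab hKn
  have h2 : ((n + 2 - 1).factorial : ℝ) = ((n : ℝ) + 1) * n.factorial := by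
    show ((n + 1).factorial : ℝ) = _
    rw [Nat.factorial_succ]
    push_cast
    ring
  have h3 := fac_pos n
  have h4 : (0 : ℝ) < (n : ℝ) + 1 := by positivity
  rw [h2]
  rw [div_add_div _ _ (by positivity) (by positivity), div_le_div_iff₀ (by positivity)
    (by positivity)]
  have h5 : (0 : ℝ) ≤ ((n : ℝ) + 1) * n.factorial * ((n : ℝ) + 1) := by positivity
  nlinarith [mul_le_mul_of_nonneg_right h1 h5]

theorem g_middle {K : ℕ} (hK : 1 ≤ K) : ∀ d, g (2 * K + d) 0 K = g (2 * K) 0 K := by
  intro d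
  induction d with
  | zero => rfl
  | succ d ih =>
    rw [← ih]
    unfold g
    rw [show 2 * K + (d + 1) = 2 * K + d + 1 by omega, card_middle hK (by omega)]
    rw [show 2 * K + d + 1 - 1 = (2 * K + d - 1) + 1 by omega, Nat.factorial_succ,
      show 2 * K + d - 1 + 1 = 2 * K + d by omega]
    push_cast
    have h1 : (0 : ℝ) < 2 * (K : ℝ) + d := by
      have : (0 : ℝ) < (K : ℝ) := by exact_mod_cast hK
      positivity
    rw [mul_div_mul_left _ _ h1.ne']

/-! ### limits -/

theorem summable_inv_fac : Summable (fun k : ℕ => 1 / (k.factorial : ℝ)) := by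
  have h := Real.summable_pow_div_factorial 1
  simpa using h

theorem e_le (n K : ℕ) : e n K ≤ ((∑' k : ℕ, 1 / (k.factorial : ℝ)) -
    ∑ k ∈ range (K + 1), 1 / (k.factorial : ℝ)) + n * (1 / ((n / 3).factorial : ℝ)) := by
  unfold e
  have h1 : ∑ k ∈ Ioo K n, 1 / ((min k (n / 3)).factorial : ℝ) ≤
      ∑ k ∈ Ioo K n, (1 / (k.factorial : ℝ) + 1 / ((n / 3).factorial : ℝ)) := by
    apply sum_le_sum
    intro k _
    have h2 : (0 : ℝ) < 1 / (k.factorial : ℝ) := one_div_pos.mpr (fac_pos k)
    have h3 : (0 : ℝ) < 1 / ((n / 3).factorial : ℝ) := one_div_pos.mpr (fac_pos _)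
    rcases min_choice k (n / 3) with h | h
    · rw [h]
      linarith
    · rw [h]
      linarith
  refine le_trans h1 ?_
  rw [sum_add_distrib, sum_const, Nat.card_Ioo, nsmul_eq_mul]
  apply add_le_add
  · have h2 : Disjoint (Ioo K n) (range (K + 1)) := by
      rw [Finset.disjoint_left]
      intro x hx hx'
      rw [mem_Ioo] at hx
      rw [mem_range] at hx'
      omega
    have h3 := summable_inv_fac.sum_le_tsum (Ioo K n ∪ range (K + 1))
      (fun k _ => (one_div_pos.mpr (fac_pos k)).le)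
    rw [sum_union h2] at h3
    linarith
  · apply mul_le_mul_of_nonneg_right _ (one_div_pos.mpr (fac_pos _)).le
    have : n - K - 1 ≤ n := by omega
    exact_mod_cast this

theorem tendsto_err : Tendsto (fun n : ℕ => (n : ℝ) * (1 / ((n / 3).factorial : ℝ))) atTop
    (𝓝 0) := by
  have h1 : Tendsto (fun q : ℕ => (4 : ℝ) ^ q / (q.factorial : ℝ)) atTop (𝓝 0) :=
    FloorSemiring.tendsto_pow_div_factorial_atTop 4
  have h2 : Tendsto (fun n : ℕ => n / 3) atTop atTop :=
    Filter.tendsto_atTop.mpr (fun b => by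
      filter_upwards [eventually_ge_atTop (3 * b)] with n hn
      omega)
  have h3 := (h1.comp h2).const_mul 2
  rw [mul_zero] at h3
  refine squeeze_zero (fun n => ?_) (fun n => ?_) h3
  · exact mul_nonneg (Nat.cast_nonneg n) (one_div_pos.mpr (fac_pos _)).le
  · have h4 : ∀ q : ℕ, 3 * q + 2 ≤ 2 * 4 ^ q := by
      intro q
      induction q with
      | zero => norm_num
      | succ q ih =>
        rw [pow_succ]
        omega
    have h5 : n ≤ 2 * 4 ^ (n / 3) := le_trans (by omega) (h4 (n / 3))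
    have h6 : (n : ℝ) ≤ 2 * 4 ^ (n / 3) := by exact_mod_cast h5
    show (n : ℝ) * (1 / ((n / 3).factorial : ℝ)) ≤ 2 * ((4 : ℝ) ^ (n / 3) /
      ((n / 3).factorial : ℝ))
    rw [mul_one_div, ← mul_div_assoc]
    exact div_le_div_of_nonneg_right h6 (fac_pos _).le

/-- The error is uniformly small. -/
theorem exists_K {ε : ℝ} (hε : 0 < ε) : ∃ K, 1 ≤ K ∧ ∃ N, ∀ n, N ≤ n → e n K < ε := by
  have h1 := (summable_inv_fac.hasSum.tendsto_sum_nat.const_sub
    (∑' k : ℕ, 1 / (k.factorial : ℝ)))
  rw [sub_self] at h1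
  have h2 := (h1.comp (tendsto_add_atTop_nat 1)).eventually_lt_const (half_pos hε)
  obtain ⟨K, hK, hK1⟩ := (h2.and (eventually_ge_atTop 1)).exists
  have h3 := tendsto_err.eventually_lt_const (half_pos hε)
  obtain ⟨N, hN⟩ := eventually_atTop.mp h3
  refine ⟨K, hK1, N, fun n hn => ?_⟩
  have h4 := e_le n K
  have h5 := hN n hn
  simp only [Function.comp] at hK
  linarith

theorem exists_limit : ∃ L : ℝ, Tendsto (fun n => p n 1) atTop (𝓝 L) := by
  apply cauchySeq_tendsto_of_complete
  rw [Metric.cauchySeq_iff']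
  intro ε hε
  obtain ⟨K, hK, N, hN⟩ := exists_K (half_pos hε)
  refine ⟨max N (2 * K), fun n hn => ?_⟩
  have key : ∀ n, max N (2 * K) ≤ n → p n 1 ≤ g (2 * K) 0 K ∧ g (2 * K) 0 K < p n 1 + ε / 2 := by
    intro n hn
    have h1 : N ≤ n := le_trans (le_max_left _ _) hn
    have h2 : 2 * K ≤ n := le_trans (le_max_right _ _) hn
    have h3 := g_middle hK (n - 2 * K)
    rw [show 2 * K + (n - 2 * K) = n by omega] at h3
    have h7 : p n 1 = g n 0 (n - 1) := p_eq (m := 0) (by omega)
    rw [← h3, h7]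
    have h4 := g_le (K := K) (show 0 < n by omega)
    have h5 := g_ge (n := n) (m := 0) (K := K) (by omega)
    have h6 := hN n h1
    exact ⟨h5, by linarith⟩
  obtain ⟨h1, h2⟩ := key n hn
  obtain ⟨h3, h4⟩ := key (max N (2 * K)) le_rfl
  rw [Real.dist_eq, abs_lt]
  constructor <;> linarith

theorem tendsto_sub (m : ℕ) : Tendsto (fun n => p n (m + 2) - p n (m + 1)) atTop (𝓝 0) := by
  rw [Metric.tendsto_atTop]
  intro ε hε
  obtain ⟨K, hK, N, hN⟩ := exists_K (half_pos hε)
  have h1 : Tendsto (fun n : ℕ => (K : ℝ) / ((n : ℝ) + 1)) atTop (𝓝 0) :=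
    tendsto_const_nhds.div_atTop
      (tendsto_atTop_add_const_right _ _ tendsto_natCast_atTop_atTop)
  obtain ⟨N', hN'⟩ := eventually_atTop.mp (h1.eventually_lt_const (half_pos hε))
  refine ⟨N + N' + K + m + 3, fun n hn => ?_⟩
  obtain ⟨n', rfl⟩ : ∃ n', n = n' + 2 := ⟨n - 2, by omega⟩
  have h2 := hN (n' + 2) (by omega)
  have h3 := hN' n' (by omega)
  rw [Real.dist_eq, sub_zero, p_eq (by omega), p_eq (by omega), abs_lt]
  have a1 := g_swap (n := n') (a := m) (b := m + 1) (K := K) (by omega) (by omega)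
    (Or.inl rfl) (by omega)
  have a2 := g_swap (n := n') (a := m + 1) (b := m) (K := K) (by omega) (by omega)
    (Or.inr rfl) (by omega)
  have a3 := g_le (K := K) (show m < n' + 2 by omega)
  have a4 := g_ge (n := n' + 2) (m := m) (K := K) (by omega)
  have a5 := g_le (K := K) (show m + 1 < n' + 2 by omega)
  have a6 := g_ge (n := n' + 2) (m := m + 1) (K := K) (by omega)
  constructor <;> linarith

/-- **Disproof of Q1.** For every `m ≥ 1` the proportion `p_n(m)` tends to the same limit: the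
sequence `L(1), L(2), …` is constant. -/
theorem result : ∃ L : ℝ, ∀ m, 1 ≤ m → Tendsto (fun n => p n m) atTop (𝓝 L) := by
  obtain ⟨L, hL⟩ := exists_limit
  refine ⟨L, fun m hm => ?_⟩
  induction m, hm using Nat.le_induction with
  | base => exact hL
  | succ m hm ih =>
    obtain ⟨m, rfl⟩ : ∃ m', m = m' + 1 := ⟨m - 1, by omega⟩
    have h := (tendsto_sub m).add ih
    rw [zero_add] at h
    refine h.congr (fun n => ?_)
    ring

end Pool.Agent.Results.MP_d8535d_co.ConstantLimit
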